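import Pool.Agent.Lib.MP_a78e1f_lc.T.Iface

/-!
# LTREE: selection of a tree of paths
-/

universe u v w

open Cardinal Filter MeasureTheory

namespace Pool.Agent.Lib.MP_a78e1f_lc.H53

open Pool.Agent.Lib.MP_100a6c_lc
open Pool.Agent.Lib.MP_6d445e_gt
open Pool.Agent.Lib.MP_a78e1f_lc

section

variable {A : Type u} [CompleteBooleanAlgebra A]

theorem m_ex {ι : Sort*} [Countable ι] {F : ι → Ult A → Prop}
    (h : ∀ i, MeasurableSet {g | F i g}) : MeasurableSet {g | ∃ i, F i g} := by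
  have : {g | ∃ i, F i g} = ⋃ i, {g | F i g} := by ext; simp
  rw [this]
  exact MeasurableSet.iUnion h

theorem m_all {ι : Sort*} [Countable ι] {F : ι → Ult A → Prop}
    (h : ∀ i, MeasurableSet {g | F i g}) : MeasurableSet {g | ∀ i, F i g} := by
  have : {g | ∀ i, F i g} = ⋂ i, {g | F i g} := by ext; simp
  rw [this]
  exact MeasurableSet.iInter h

theorem m_and {F G : Ult A → Prop} (h : MeasurableSet {g | F g}) (h' : MeasurableSet {g | G g}) :
    MeasurableSet {g | F g ∧ G g} := h.inter h'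

theorem m_not {F : Ult A → Prop} (h : MeasurableSet {g | F g}) : MeasurableSet {g | ¬ F g} :=
  h.compl

end

section

variable {A : Type u} [CompleteBooleanAlgebra A] {X : Type u} (en : X → ℕ) (nd : X → List ℕ)
  (ed : ℕ → X → X → A)

/-- `s'` is the first state with `ed m s s' ∈ g`. -/
def Fst (m : ℕ) (s s' : X) (g : Ult A) : Prop :=
  ed m s s' ∈ g ∧ ∀ s'', en s'' < en s' → ¬ ed m s s'' ∈ g

/-- The entry of `nd s'` after `nd s`. -/
def lab (s s' : X) : ℕ := (nd s').getD (nd s).length 0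

/-- `m` is the `j`-th parameter at `s`. -/
def Mj (s : X) : ℕ → ℕ → Ult A → Prop
  | 0, m, _ => m = 0
  | j + 1, m, g => ∃ m', Mj s j m' g ∧ ∃ s', Fst en ed m' s s' g ∧ m = lab nd s s' + 1

/-- `s'` is a child of `s`. -/
def Ch (s s' : X) (g : Ult A) : Prop := ∃ j m, Mj en nd ed s j m g ∧ Fst en ed m s s' g

/-- The list is a path. -/
def Pg (s0 : X) : List X → Ult A → Prop
  | [], _ => False
  | [s], _ => s = s0
  | s' :: s :: π, g => Ch en nd ed s s' g ∧ Pg s0 (s :: π) g

variable [Countable X]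

theorem m_Fst (m : ℕ) (s s' : X) : MeasurableSet {g : Ult A | Fst en ed m s s' g} :=
  m_and (MP_6d445e_gt.measurable_mem A _) (m_all fun s'' => m_all fun _ => m_not (MP_6d445e_gt.measurable_mem A _))

theorem m_Mj (s : X) : ∀ j m, MeasurableSet {g : Ult A | Mj en nd ed s j m g}
  | 0, m => MeasurableSet.const (m = 0)
  | j + 1, m => m_ex fun m' => m_and (m_Mj s j m') (m_ex fun s' =>
      m_and (m_Fst en ed m' s s') (MeasurableSet.const _))

theorem m_Ch (s s' : X) : MeasurableSet {g : Ult A | Ch en nd ed s s' g} :=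
  m_ex fun j => m_ex fun m => m_and (m_Mj en nd ed s j m) (m_Fst en ed m s s')

theorem m_Pg (s0 : X) : ∀ π, MeasurableSet {g : Ult A | Pg en nd ed s0 π g}
  | [] => MeasurableSet.const False
  | [s] => MeasurableSet.const (s = s0)
  | s' :: s :: π => m_and (m_Ch en nd ed s s') (m_Pg s0 (s :: π))

end

section

variable {A : Type u} [CompleteBooleanAlgebra A] {X : Type u} {en : X → ℕ} {nd : X → List ℕ}
  {gd : X → A} {ed : ℕ → X → X → A} {ok : List ℕ → List ℕ → Prop}

theorem ed_anti (hP : PHyp ok nd gd ed) {m m' : ℕ} (h : m ≤ m') (s s' : X) :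
    ed m' s s' ≤ ed m s s' := by
  induction h with
  | refl => exact le_rfl
  | step h ih => exact (hP.anti _ _ _).trans ih

theorem lab_eq {s s' : X} {l : ℕ} (h : nd s ++ [l] <+: nd s') : lab nd s s' = l := by
  obtain ⟨t, ht⟩ := h
  unfold lab
  rw [← ht]
  simp [List.getD_eq_getElem?_getD]

theorem node' (hok : ∀ t t', ok t t' → t <+: t') (hP : PHyp ok nd gd ed) {m : ℕ} {s s' : X}
    {g : Ult A} (h : ed m s s' ∈ g) : m ≤ lab nd s s' ∧ ok (nd s ++ [lab nd s s']) (nd s') := by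
  have h1 : ed m s s' ≠ ⊥ := by
    intro h2
    rw [h2] at h
    exact g.not_bot h
  obtain ⟨l, hl, hl'⟩ := hP.node m s s' h1
  rw [lab_eq (hok _ _ hl')]
  exact ⟨hl, hl'⟩

theorem fst_uniq (hen : Function.Injective en) {m : ℕ} {s s' s'' : X} {g : Ult A}
    (h : Fst en ed m s s' g) (h' : Fst en ed m s s'' g) : s' = s'' := by
  apply hen
  by_contra hne
  rcases lt_or_gt_of_ne hne with h1 | h1
  · exact h'.2 _ h1 h.1
  · exact h.2 _ h1 h'.1

theorem mj_uniq (hen : Function.Injective en) {s : X} {g : Ult A} : ∀ {j m m' : ℕ},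
    Mj en nd ed s j m g → Mj en nd ed s j m' g → m = m'
  | 0, _, _, h, h' => h.trans h'.symm
  | j + 1, _, _, ⟨a, ha, s', hs, e⟩, ⟨b, hb, s'', hs', e'⟩ => by
    have h1 := mj_uniq hen ha hb
    subst h1
    have h2 := fst_uniq hen hs hs'
    subst h2
    rw [e, e']

variable {g : Ult A}

theorem fst_ex {s : X} (hE : ∀ m s, gd s ∈ g → ∃ s', ed m s s' ∈ g) (hs : gd s ∈ g) (m : ℕ) :
    ∃ s', Fst en ed m s s' g := by
  classical
  have hex : ∃ n, ∃ s', en s' = n ∧ ed m s s' ∈ g := by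
    obtain ⟨s', hs'⟩ := hE m s hs
    exact ⟨_, s', rfl, hs'⟩
  obtain ⟨s', h1, h2⟩ := Nat.find_spec hex
  refine ⟨s', h2, fun s'' hlt h3 => ?_⟩
  exact Nat.find_min hex (h1 ▸ hlt) ⟨s'', rfl, h3⟩

theorem mj_ex {s : X} (hE : ∀ m s, gd s ∈ g → ∃ s', ed m s s' ∈ g) (hs : gd s ∈ g) :
    ∀ j, ∃ m, Mj en nd ed s j m g
  | 0 => ⟨0, rfl⟩
  | j + 1 => by
    obtain ⟨m, hm⟩ := mj_ex hE hs j
    obtain ⟨s', hs'⟩ := fst_ex (en := en) hE hs m
    exact ⟨_, m, hm, s', hs', rfl⟩

theorem mj_ge (hok : ∀ t t', ok t t' → t <+: t') (hP : PHyp ok nd gd ed) {s : X} :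
    ∀ {j m : ℕ}, Mj en nd ed s j m g → j ≤ m
  | 0, _, _ => Nat.zero_le _
  | j + 1, m, ⟨m', h1, s', h2, e⟩ => by
    have h3 := mj_ge hok hP h1
    have h4 := (node' hok hP h2.1).1
    omega

/-- The labels of the children chosen before the step `k` are smaller than the `k`-th parameter. -/
theorem lab_lt (hen : Function.Injective en) (hok : ∀ t t', ok t t' → t <+: t')
    (hP : PHyp ok nd gd ed) {s s' : X} {j m : ℕ} (hj : Mj en nd ed s j m g)
    (hs : Fst en ed m s s' g) : ∀ {k m' : ℕ}, j < k → Mj en nd ed s k m' g → lab nd s s' < m'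
  | 0, _, h, _ => absurd h (Nat.not_lt_zero _)
  | k + 1, m', h, ⟨a, ha, s'', hs'', e⟩ => by
    rcases Nat.lt_or_ge j k with h1 | h1
    · have h2 := lab_lt hen hok hP hj hs h1 ha
      have h3 := (node' hok hP hs''.1).1
      omega
    · have h2 : j = k := by omega
      subst h2
      have h3 := mj_uniq hen hj ha
      subst h3
      have h4 := fst_uniq hen hs hs''
      subst h4
      omega

end

/-- **LTREE**. -/
theorem ltree : LtreeStatement.{u} := by
  intro ok hok A _ X _ nd gd ed hP s0 a ha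
  classical
  obtain ⟨en, hen⟩ := exists_injective_nat X
  obtain ⟨P, hPn⟩ := exists_name (F := fun π g => Pg en nd ed s0 π g) fun π => m_Pg en nd ed s0 π
  have hE0 : ∀ᶠ g in ae A, ∀ m s, gd s ∈ g → ∃ s', ed m s s' ∈ g := by
    refine ae_all fun m => ae_all fun s => ?_
    filter_upwards [ae_iSup fun s' => ed m s s'] with g hg h
    exact hg.1 (g.mono (hP.ex m s) h)
  refine ⟨P, ?_⟩
  filter_upwards [hPn, hE0] with g hg hE hag
  -- good values
  have hgd : ∀ s π, Pg en nd ed s0 (s :: π) g → gd s ∈ g := by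
    intro s π h
    cases π with
    | nil =>
      have h1 : s = s0 := h
      rw [h1]
      exact g.mono ha hag
    | cons s1 π =>
      obtain ⟨j, m, -, h2⟩ := h.1
      exact g.mono (hP.le _ _ _) h2.1
  have hlast : ∀ π, Pg en nd ed s0 π g → ∃ ρ, π = ρ ++ [s0] := by
    intro π
    induction π with
    | nil => exact fun h => h.elim
    | cons s π ih =>
      intro h
      cases π with
      | nil => exact ⟨[], by rw [show s = s0 from h]; rfl⟩
      | cons s1 π =>
        obtain ⟨ρ, hρ⟩ := ih h.2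
        exact ⟨s :: ρ, by rw [hρ]; rfl⟩
  refine ⟨?_, ?_, ?_, ?_, ?_, ?_⟩
  · exact (hg _).2 rfl
  · intro π h
    exact hlast π ((hg _).1 h)
  · intro s' s π h
    have h1 := (hg _).1 h
    refine ⟨(hg _).2 h1.2, ?_⟩
    obtain ⟨j, m, -, h2⟩ := h1.1
    exact g.mono (ed_anti hP (Nat.zero_le m) _ _) h2.1
  · intro s' s'' s π l h h' hl hl'
    obtain ⟨j, m, h1, h2⟩ := ((hg _).1 h).1
    obtain ⟨k, n, h3, h4⟩ := ((hg _).1 h').1
    have e1 := lab_eq hl
    have e2 := lab_eq hl'
    rcases lt_trichotomy j k with hjk | hjk | hjk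
    · have h5 := lab_lt hen hok hP h1 h2 hjk h3
      have h6 := (node' hok hP h4.1).1
      omega
    · subst hjk
      have h5 := mj_uniq hen h1 h3
      subst h5
      exact fst_uniq hen h2 h4
    · have h5 := lab_lt hen hok hP h3 h4 hjk h1
      have h6 := (node' hok hP h2.1).1
      omega
  · intro s π h m
    have h0 := (hg _).1 h
    have hs := hgd s π h0
    obtain ⟨n, hn⟩ := mj_ex (en := en) (nd := nd) hE hs m
    obtain ⟨s', hs'⟩ := fst_ex (en := en) hE hs n
    have h1 := node' hok hP hs'.1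
    refine ⟨s', lab nd s s', (mj_ge hok hP hn).trans h1.1, h1.2, (hg _).2 ⟨⟨m, n, hn, hs'⟩, h0⟩⟩
  · intro s π h m
    have h0 := (hg _).1 h
    have hs := hgd s π h0
    obtain ⟨n, hn⟩ := mj_ex (en := en) (nd := nd) hE hs m
    refine ⟨n, fun s' l hl hpre h' => ?_⟩
    obtain ⟨k, m', h1, h2⟩ := ((hg _).1 h').1
    have e1 := lab_eq hpre
    have hk : m ≤ k := by
      by_contra hc
      have := lab_lt hen hok hP h1 h2 (not_le.1 hc) hn
      omega
    exact g.mono (ed_anti hP (hk.trans (mj_ge hok hP h1)) _ _) h2.1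

end Pool.Agent.Lib.MP_a78e1f_lc.H53
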