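import Pool.Agent.Lib.MP_a78e1f_lc.T.Iface

/-!
# RKA: the rank
-/

universe u v w

open Cardinal Order

namespace Pool.Agent.Lib.MP_a78e1f_lc.H53

open Pool.Agent.Lib.MP_a78e1f_lc

section

variable {O : Type u} [LinearOrder O]

/-- Few elements are bounded. -/
theorem bdd_of_card (c : Cardinal.{u}) (hc : c < Order.cof O) (S : Set O) (hS : #S ≤ c) :
    ∃ b : O, ∀ a ∈ S, a < b := by
  by_contra h
  push Not at h
  have : IsCofinal S := by
    intro b
    obtain ⟨a, ha, hb⟩ := h b
    exact ⟨a, ha, hb⟩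
  exact absurd (lt_of_lt_of_le hc ((Order.cof_le this).trans hS)) (lt_irrefl _)

/-- A monotone map into a small partial order is eventually constant. -/
theorem ev_const {R : Type u} [PartialOrder R] (hR : #R < Order.cof O) (f : O → R)
    (hf : Monotone f) : ∃ b : O, ∀ a, b ≤ a → f a = f b := by
  classical
  have hne : Nonempty O := by
    by_contra h
    rw [not_nonempty_iff] at h
    have := Order.cof_eq_zero_iff.2 h
    rw [this] at hR
    exact absurd hR (not_lt_bot)
  -- bounds of the bounded fibers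
  let g : R → O := fun r => if h : ∃ b : O, ∀ a, f a = r → a < b then h.choose else hne.some
  obtain ⟨b, hb⟩ := bdd_of_card (#R) hR (Set.range g) mk_range_le
  have hun : ∀ c : O, ∃ a, c ≤ a ∧ f a = f b := by
    by_contra h
    push Not at h
    obtain ⟨c, hc⟩ := h
    have hex : ∃ c : O, ∀ a, f a = f b → a < c := by
      refine ⟨c, fun a ha => ?_⟩
      by_contra h
      exact hc a (not_lt.1 h) ha
    have h1 : g (f b) = hex.choose := dif_pos hex
    have h2 := hex.choose_spec b rfl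
    have h3 := hb (g (f b)) ⟨_, rfl⟩
    rw [h1] at h3
    exact absurd (h2.trans h3) (lt_irrefl _)
  refine ⟨b, fun a ha => ?_⟩
  obtain ⟨c, hc, hc'⟩ := hun a
  exact le_antisymm (hc' ▸ hf hc) (hf ha)

end

/-- **RKA**. -/
theorem rka : RkaStatement.{u} := by
  intro R _
  let κ : Cardinal.{u} := Order.succ (max ℵ₀ #R)
  have hreg : κ.IsRegular := isRegular_succ (le_max_left _ _)
  have hcof : Order.cof κ.ord.ToType = κ := by
    rw [Ordinal.cof_toType]
    exact hreg.cof_ord
  have hlt : max ℵ₀ #R < Order.cof κ.ord.ToType := by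
    rw [hcof]
    exact Order.lt_succ _
  have hne : Nonempty κ.ord.ToType := by
    rw [← Cardinal.mk_ne_zero_iff, Cardinal.mk_ord_toType]
    exact (Cardinal.aleph0_pos.trans_le ((le_max_left _ _).trans (Order.le_succ _))).ne'
  refine ⟨κ.ord.ToType, inferInstance, inferInstance, hne, fun p => ?_⟩
  set O : Type u := κ.ord.ToType with hO
  let F : (α : O) → (∀ β : O, β < α → List ℕ → R) → List ℕ → R := fun α q t =>
    p t ⊔ ⨆ β, ⨆ h : β < α, ⨅ m : ℕ, ⨆ l, ⨆ _ : m ≤ l, q β h (t ++ [l])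
  let Q : O → List ℕ → R := (wellFounded_lt (α := O)).fix F
  have hQ : ∀ α t, Q α t = p t ⊔ ⨆ β, ⨆ _ : β < α, ⨅ m : ℕ, ⨆ l, ⨆ _ : m ≤ l, Q β (t ++ [l]) := by
    intro α t
    have := (wellFounded_lt (α := O)).fix_eq F α
    exact congrFun this t
  refine ⟨Q, hQ, fun t => ?_⟩
  have hmono : ∀ t, Monotone fun α => Q α t := by
    intro t α β hab
    show Q α t ≤ Q β t
    rw [hQ α t, hQ β t]
    refine sup_le_sup le_rfl ?_
    refine iSup_le fun γ => iSup_le fun hγ => ?_
    exact le_iSup₂_of_le γ (hγ.trans_le hab) le_rfl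
  have hc : ∀ t, ∃ b : O, ∀ a, b ≤ a → Q a t = Q b t := fun t =>
    ev_const ((le_max_right _ _).trans_lt hlt) (fun α => Q α t) (hmono t)
  choose b hb using hc
  obtain ⟨s, hs⟩ := bdd_of_card (max ℵ₀ #R) hlt (Set.range b)
    (((Set.countable_range b).le_aleph0).trans (le_max_left _ _))
  have hs' : ∀ t a, s ≤ a → Q a t = Q s t := by
    intro t a ha
    have h1 : b t < s := hs _ ⟨t, rfl⟩
    rw [hb t a (h1.le.trans ha), hb t s h1.le]
  have hsup : ∀ t, ⨆ α, Q α t = Q s t := by
    intro t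
    refine le_antisymm (iSup_le fun α => ?_) (le_iSup (fun α => Q α t) s)
    rcases le_total α s with h | h
    · exact hmono t h
    · exact (hs' t α h).le
  obtain ⟨s', hss⟩ := bdd_of_card (max ℵ₀ #R) hlt {s}
    ((mk_singleton s).le.trans ((one_lt_aleph0.le).trans (le_max_left _ _)))
  have hss' : s < s' := hss s rfl
  calc ⨅ m : ℕ, ⨆ l, ⨆ _ : m ≤ l, ⨆ α, Q α (t ++ [l])
      = ⨅ m : ℕ, ⨆ l, ⨆ _ : m ≤ l, Q s (t ++ [l]) := by simp only [hsup]
    _ ≤ Q s' t := by
        rw [hQ s' t]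
        exact le_sup_of_le_right (le_iSup₂_of_le s hss' le_rfl)
    _ ≤ ⨆ α, Q α t := le_iSup (fun α => Q α t) s'

end Pool.Agent.Lib.MP_a78e1f_lc.H53
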